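import Pool.Agent.W247.ET.Stm

set_option autoImplicit false

/-! Project ET (helper247), part KINT: integrability of the integrand of one quadruple. -/

open Finset MeasureTheory

namespace Pool.Agent.W723.ET

open Pool.Agent.W247.ET

/-- powers times exponentials are integrable -/
theorem gam (s : ℝ) (hs : 0 < s) (k : ℕ) :
    IntegrableOn (fun y : ℝ => y ^ k * Real.exp (-(s * y))) (Set.Ioi 0) := by
  have hk : (-1 : ℝ) < (k : ℝ) := by
    have : (0 : ℝ) ≤ k := Nat.cast_nonneg k
    linarith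
  have h := integrableOn_rpow_mul_exp_neg_mul_rpow (p := 1) (s := (k : ℝ)) (b := s) hk one_pos hs
  refine h.congr_fun ?_ measurableSet_Ioi
  intro v _
  simp only [Real.rpow_one, Real.rpow_natCast]
  rw [neg_mul]

/-- the value of the integral -/
theorem gam_val (s : ℝ) (hs : 0 < s) (k : ℕ) :
    ∫ y in Set.Ioi (0 : ℝ), y ^ k * Real.exp (-(s * y)) = (k.factorial : ℝ) / s ^ (k + 1) := by
  have hk : (0 : ℝ) < (k : ℝ) + 1 := by positivity
  have h := Real.integral_rpow_mul_exp_neg_mul_Ioi hk hs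
  rw [Real.Gamma_nat_eq_factorial] at h
  have e1 : ∫ y in Set.Ioi (0 : ℝ), y ^ k * Real.exp (-(s * y)) =
      ∫ t in Set.Ioi (0 : ℝ), t ^ ((k : ℝ) + 1 - 1) * Real.exp (-(s * t)) := by
    apply setIntegral_congr_fun measurableSet_Ioi
    intro v _
    simp only [add_sub_cancel_right, Real.rpow_natCast]
  rw [e1, h]
  have e2 : (1 / s) ^ ((k : ℝ) + 1) = 1 / s ^ (k + 1) := by
    rw [← Nat.cast_succ, Real.rpow_natCast, one_div, inv_pow, one_div]
  rw [e2]
  ring

/-- a polynomial of degree at most six times an exponential is integrable -/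
theorem poly6 (s : ℝ) (hs : 0 < s) (c : ℕ → ℝ) (n : ℕ) :
    IntegrableOn (fun y : ℝ => (∑ k ∈ range n, c k * y ^ k) * Real.exp (-(s * y))) (Set.Ioi 0) := by
  have h : IntegrableOn (fun y : ℝ => ∑ k ∈ range n, c k * (y ^ k * Real.exp (-(s * y))))
      (Set.Ioi 0) := by
    apply integrable_finsetSum
    intro k _
    exact (gam s hs k).const_mul (c k)
  refine h.congr_fun ?_ measurableSet_Ioi
  intro v _
  simp only
  rw [Finset.sum_mul]
  refine Finset.sum_congr rfl fun k _ => ?_
  ring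

/-- products of two cubic polynomials -/
theorem cub (s : ℝ) (hs : 0 < s) (c0 c1 c2 c3 d0 d1 d2 d3 : ℝ) :
    IntegrableOn (fun y : ℝ => (c0 + c1 * y + c2 * y ^ 2 + c3 * y ^ 3) *
      (d0 + d1 * y + d2 * y ^ 2 + d3 * y ^ 3) * Real.exp (-(s * y))) (Set.Ioi 0) := by
  have h := poly6 s hs (fun k => if k = 0 then c0 * d0 else if k = 1 then c0 * d1 + c1 * d0 else
    if k = 2 then c0 * d2 + c1 * d1 + c2 * d0 else
    if k = 3 then c0 * d3 + c1 * d2 + c2 * d1 + c3 * d0 else
    if k = 4 then c1 * d3 + c2 * d2 + c3 * d1 else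
    if k = 5 then c2 * d3 + c3 * d2 else c3 * d3) 7
  refine h.congr_fun ?_ measurableSet_Ioi
  intro v _
  simp only [Finset.sum_range_succ, Finset.sum_range_zero]
  norm_num
  ring

theorem main : KINT_stmt := by
  intro P hP a x b z ha hx hb hz
  have hs : 0 < a + x + b + z := by positivity
  rcases hP with rfl | rfl
  · refine (cub (a + x + b + z) hs 0 (3 * (a - x)) (-((a - x) * (a + x)))
      (4 * (a * x) * (a - x)) 0 (3 * (b - z)) (-((b - z) * (b + z)))
      (4 * (b * z) * (b - z))).congr_fun ?_ measurableSet_Ioi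
    intro y _
    simp only [kf, P1]
    ring
  · refine (cub (a + x + b + z) hs (13 / 4) (2 * (a + x)) (-(a + x) ^ 2 - 4 * (a * x))
      (4 * (a + x) * (a * x)) (13 / 4) (2 * (b + z)) (-(b + z) ^ 2 - 4 * (b * z))
      (4 * (b + z) * (b * z))).congr_fun ?_ measurableSet_Ioi
    intro y _
    simp only [kf, P2]
    ring

end Pool.Agent.W723.ET
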